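import Pool.Agent.H78.GX.H78.GS.TF3

/-!
# Theorem (G), MP_c59857_nt, section 3a, group F, row LCS: the frequencies under small shifts
-/

set_option autoImplicit false

namespace Pool.Agent.H78.GX.H63.G3

open Finset Pool.Agent.H6.N4D Pool.Agent.H78.GX.H6.N4D Pool.Agent.H78.GX Pool.Agent.H78.GX.H78.GS

/-- the sizes along a small shift -/
theorem shf_size (S : Par) (hok : Okx S) (hr : S.rho ≤ 1 / 100) (hV : S.V * S.h ≤ S.rho ^ 2)
    (t : ℤ) (w : ℕ) (hw : w ≤ S.V) :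
    0 ≤ S.h * w ∧ S.h * w ≤ S.rho ^ 2 ∧ S.rho ^ 2 ≤ 1 / 10000 ∧ S.x t ≤ S.x (t + w) ∧
      S.x (t + w) ≤ S.x t * (1 + 2 * S.rho ^ 2) ∧
      1 / S.x t - 1 / S.x (t + w) ≤ S.rho ^ 2 / S.x t := by
  have hh := hok.hh
  have hr0 := hok.hr0
  have hx0 : 0 < S.x t := Par.x_pos t
  have h1 : 0 ≤ S.h * w := by positivity
  have h2 : S.h * w ≤ S.rho ^ 2 := by
    have h3 : (w : ℝ) ≤ S.V := by exact_mod_cast hw
    calc S.h * w ≤ S.h * S.V := mul_le_mul_of_nonneg_left h3 hh.le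
      _ = S.V * S.h := mul_comm _ _
      _ ≤ S.rho ^ 2 := hV
  have h3 : S.rho ^ 2 ≤ 1 / 10000 := by nlinarith
  have h4 : S.x (t + w) = S.x t * Real.exp (S.h * w) := by
    have := Par.x_add (S := S) t (w : ℤ)
    push_cast at this
    exact this
  have h5 : Real.exp (S.h * w) ≤ 1 + 2 * (S.h * w) := by
    have h6 := Real.abs_exp_sub_one_le (x := S.h * w) (by rw [abs_of_nonneg h1]; linarith)
    rw [abs_of_nonneg h1] at h6
    have h7 := (abs_le.1 h6).2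
    linarith
  have h6 : 1 ≤ Real.exp (S.h * w) := Real.one_le_exp h1
  refine ⟨h1, h2, h3, ?_, ?_, ?_⟩
  · rw [h4]
    exact le_mul_of_one_le_right hx0.le h6
  · rw [h4]
    exact mul_le_mul_of_nonneg_left (by linarith) hx0.le
  · rw [h4]
    have h7 : 1 - S.h * w ≤ Real.exp (-(S.h * w)) := by
      have := Real.add_one_le_exp (-(S.h * w))
      linarith
    have h8 : 1 / (S.x t * Real.exp (S.h * w)) = Real.exp (-(S.h * w)) / S.x t := by
      rw [Real.exp_neg]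
      field_simp
    rw [h8, ← sub_div]
    exact div_le_div_of_nonneg_right (by linarith) hx0.le

theorem pf_LCS (hSIZ : T_SIZ) : T_LCS := by
  intro K hK
  obtain ⟨X₁, hX₁⟩ := hSIZ
  refine ⟨X₁, ?_⟩
  intro S e₀ e₁ ν T θ φ w b a t j i hok hSK hX he0 he0' he1 he1' hν0 hν1 hT ht ht' hw hb hRS hAt
  obtain ⟨-, -, -, hr, -, -, hV, -, -⟩ := hX₁ S hok hX
  obtain ⟨-, -, h3, h4, h5, h6⟩ := shf_size S hok hr hV t w hw
  obtain ⟨hR1, -⟩ := hRS
  unfold At fh at hAt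
  unfold fh
  have hr0 := hok.hr0
  have hx0 : 0 < S.x t := Par.x_pos t
  have hx0' : 0 < S.x (t + w) := Par.x_pos _
  set ρ := S.rho with hρ
  set x := S.x t with hx
  set x' := S.x (t + w) with hx'
  have hρx : 0 < ρ * x := mul_pos hr0 hx0
  have hρx' : 0 < ρ * x' := mul_pos hr0 hx0'
  have e1 : θ (t + w) i - T / x' - (a : ℝ) / b =
      (θ (t + w) i - θ t j) + ((θ t j - T / x - (a : ℝ) / b) + T * (1 / x - 1 / x')) := by ring
  rw [e1]
  have h7 : nd (T * (1 / x - 1 / x')) ≤ 1 / 3200 / (ρ * x) := by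
    refine (nd_le_abs _).trans ?_
    rw [abs_mul]
    have h8 : 0 ≤ 1 / x - 1 / x' := sub_nonneg.2 (one_div_le_one_div_of_le hx0 h4)
    rw [abs_of_nonneg h8]
    calc |T| * (1 / x - 1 / x') ≤ (e₁ / ρ ^ 2) * (ρ ^ 2 / x) :=
          mul_le_mul hT h6 h8 (by positivity)
      _ = e₁ * ρ / (ρ * x) := by
          field_simp
      _ ≤ 1 / 3200 / (ρ * x) := by
          apply div_le_div_of_nonneg_right _ hρx.le
          nlinarith
  have h8 : ν * e₁ / (ρ * x) ≤ 1 / 32 / (ρ * x) := by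
    apply div_le_div_of_nonneg_right _ hρx.le
    nlinarith
  have h9 : e₀ / (ρ * x) ≤ 1 / 32 / (ρ * x) := div_le_div_of_nonneg_right he0' hρx.le
  have h10 := nd_add_le (θ (t + w) i - θ t j)
    ((θ t j - T / x - (a : ℝ) / b) + T * (1 / x - 1 / x'))
  have h11 := nd_add_le (θ t j - T / x - (a : ℝ) / b) (T * (1 / x - 1 / x'))
  have h12 : nd ((θ (t + w) i - θ t j) +
      ((θ t j - T / x - (a : ℝ) / b) + T * (1 / x - 1 / x'))) ≤
      1 / 32 / (ρ * x) + (1 / 32 / (ρ * x) + 1 / 3200 / (ρ * x)) := by linarith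
  refine h12.trans ?_
  have h13 : 1 / 32 / (ρ * x) + (1 / 32 / (ρ * x) + 1 / 3200 / (ρ * x)) =
      (201 / 3200) / (ρ * x) := by ring
  have h14 : 1 / (8 * (ρ * x')) = (1 / 8) / (ρ * x') := by
    field_simp
  rw [h13, h14, div_le_div_iff₀ hρx hρx']
  nlinarith

end Pool.Agent.H78.GX.H63.G3
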